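import Pool.Agent.Helper39.AperyStrict

/-!
# The generalized Apery polynomials `A_n(2,1;q)` are strictly q-log-convex

For every `n ≥ 1` the real polynomial `A_{n-1}(2,1;q) A_{n+1}(2,1;q) - A_n(2,1;q) ^ 2` has only
nonnegative coefficients, and the coefficient of `q ^ j` is positive exactly for `1 ≤ j ≤ 2 n`.
-/

set_option autoImplicit false

open Polynomial

namespace Pool.Agent.Results.MP_f59cb1_co.StrictLogConvexity

/-- The generalized Apery polynomial
`A_n(r,s;q) = ∑_{i=0}^n (n choose i) ^ r (n+i choose i) ^ s q ^ i`. -/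
noncomputable def apery (r s n : ℕ) : ℝ[X] :=
  ∑ i ∈ Finset.range (n + 1), C ((n.choose i : ℝ) ^ r * ((n + i).choose i : ℝ) ^ s) * X ^ i

/-- `f ≥_q g`: the difference `f - g` has only nonnegative coefficients. -/
def GeQ (f g : ℝ[X]) : Prop := ∀ j : ℕ, 0 ≤ (f - g).coeff j

theorem coeff_apery (n k : ℕ) :
    (apery 2 1 n).coeff k = ((Pool.Agent.Helper39.Apery.a n k : ℚ) : ℝ) := by
  unfold apery Pool.Agent.Helper39.Apery.a
  rw [Polynomial.finsetSum_coeff]
  simp only [Polynomial.coeff_C_mul, Polynomial.coeff_X_pow]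
  by_cases hk : k ∈ Finset.range (n + 1)
  · rw [Finset.sum_eq_single k]
    · simp
    · intro b _ hb
      rw [if_neg (fun h => hb h.symm), mul_zero]
    · intro h
      exact absurd hk h
  · have hlt : n < k := by simpa using hk
    rw [Nat.choose_eq_zero_of_lt hlt]
    rw [Finset.sum_eq_zero]
    · simp
    · intro b hb
      rw [if_neg, mul_zero]
      rintro rfl
      exact hk hb

theorem coeff_diff (m j : ℕ) :
    (apery 2 1 m * apery 2 1 (m + 2) - apery 2 1 (m + 1) ^ 2).coeff j =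
      ((∑ x ∈ Finset.HasAntidiagonal.antidiagonal j,
        (Pool.Agent.Helper39.Apery.a (m + 2) x.1 * Pool.Agent.Helper39.Apery.a m x.2 -
          Pool.Agent.Helper39.Apery.a (m + 1) x.1 * Pool.Agent.Helper39.Apery.a (m + 1) x.2) : ℚ) :
        ℝ) := by
  rw [mul_comm, pow_two, Polynomial.coeff_sub, Polynomial.coeff_mul, Polynomial.coeff_mul,
    ← Finset.sum_sub_distrib]
  push_cast
  apply Finset.sum_congr rfl
  intro x _
  rw [coeff_apery, coeff_apery, coeff_apery, coeff_apery]

/-- For every `n ≥ 1` the polynomial `A_{n-1} A_{n+1} - A_n ^ 2`, where `A_n = A_n(2,1;q)`, has only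
nonnegative coefficients, and its coefficient of `q ^ j` is positive exactly for `1 ≤ j ≤ 2 n`. -/
theorem result (n : ℕ) (hn : 1 ≤ n) :
    GeQ (apery 2 1 (n - 1) * apery 2 1 (n + 1)) (apery 2 1 n ^ 2) ∧
    ∀ j : ℕ, 0 < (apery 2 1 (n - 1) * apery 2 1 (n + 1) - apery 2 1 n ^ 2).coeff j ↔
      1 ≤ j ∧ j ≤ 2 * n := by
  obtain ⟨m, rfl⟩ : ∃ m, n = m + 1 := ⟨n - 1, by omega⟩
  have e1 : m + 1 - 1 = m := by omega
  have e2 : m + 1 + 1 = m + 2 := rfl
  rw [e1, e2]
  constructor
  · intro j
    rw [coeff_diff]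
    exact_mod_cast Pool.Agent.Helper39.Apery.main_sum m j
  · intro j
    rw [coeff_diff]
    constructor
    · intro h
      by_contra hc
      rw [Pool.Agent.Helper39.Apery.main_zero m j (by omega)] at h
      simp at h
    · rintro ⟨h1, h2⟩
      exact_mod_cast Pool.Agent.Helper39.Apery.main_pos m j h1 h2

end Pool.Agent.Results.MP_f59cb1_co.StrictLogConvexity
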